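import Pool.Agent.W758.AHC.Stm

set_option autoImplicit false

namespace Pool.Agent.W696.AHC

open Pool.Agent.W758.AHC

theorem x2 : S_X2 := by
  intro ι _ I A hI hinj h6 hhalf
  by_contra hlt
  have hA : A.card = 6 := by omega
  have hge : ∀ i ∈ I, 4 ≤ (A.filter (fun a => i ∈ a)).card := by
    intro i hi
    have := hhalf i hi
    omega
  set X : Finset (Finset ι) := A.image (fun a => a ∩ I) with hXdef
  have hinj' : Set.InjOn (fun a => a ∩ I) (A : Set (Finset ι)) := by
    intro a ha b hb h
    exact hinj a ha b hb h
  have hX : X.card = 6 := by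
    rw [hXdef, Finset.card_image_of_injOn hinj', hA]
  have hsub : X ⊆ I.powerset := by
    intro x hx
    obtain ⟨a, _, rfl⟩ := Finset.mem_image.mp hx
    exact Finset.mem_powerset.mpr Finset.inter_subset_right
  have hsum : ∑ x ∈ X, x.card = ∑ i ∈ I, (A.filter (fun a => i ∈ a)).card := by
    rw [hXdef, Finset.sum_image hinj']
    have e1 : ∀ a : Finset ι, (a ∩ I).card = ∑ i ∈ I, if i ∈ a then 1 else 0 := by
      intro a
      rw [Finset.sum_ite, Finset.sum_const_zero, add_zero, Finset.sum_const, smul_eq_mul, mul_one]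
      congr 1
      ext i
      simp [and_comm]
    have e2 : ∀ i : ι, (A.filter (fun a => i ∈ a)).card = ∑ a ∈ A, if i ∈ a then 1 else 0 := by
      intro i
      rw [Finset.card_filter]
    simp only [e1, e2]
    rw [Finset.sum_comm]
  have h12 : 12 ≤ ∑ x ∈ X, x.card := by
    rw [hsum]
    have := Finset.card_nsmul_le_sum I (fun i => (A.filter (fun a => i ∈ a)).card) 4 hge
    rw [hI, smul_eq_mul] at this
    exact this
  have hpow : ∑ x ∈ I.powerset, x.card = 12 := by
    have := Finset.sum_powerset_apply_card (x := I) (fun m : ℕ => m)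
    rw [hI] at this
    rw [this]
    decide
  have hsplit := Finset.sum_sdiff (f := fun x : Finset ι => x.card) hsub
  rw [hpow] at hsplit
  have hc : (I.powerset \ X).card = 2 := by
    rw [Finset.card_sdiff_of_subset hsub, Finset.card_powerset, hI, hX]
    norm_num
  obtain ⟨y, hy, hne⟩ : ∃ y ∈ I.powerset \ X, y ≠ ∅ := by
    by_contra hcon
    simp only [ne_eq, not_exists, not_and, not_not] at hcon
    have : (I.powerset \ X) ⊆ {∅} := by
      intro y hy
      rw [Finset.mem_singleton]
      exact hcon y hy
    have := Finset.card_le_card this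
    rw [hc, Finset.card_singleton] at this
    omega
  have h1 : y.card ≤ ∑ x ∈ I.powerset \ X, x.card :=
    Finset.single_le_sum (f := fun x : Finset ι => x.card) (fun _ _ => Nat.zero_le _) hy
  have h2 : 0 < y.card := Finset.card_pos.mpr (Finset.nonempty_iff_ne_empty.mpr hne)
  omega

end Pool.Agent.W696.AHC
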